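import Mathlib
import Pool.Agent.V1199.ModTop

open Set Filter Topology
open Pool.Agent.V1199.ModTop

namespace Pool.Agent.Results.MP_aae45c_an.NotRegular

/-- For the exponents `p_n = n + 1` the modular topology of `ℓ^{(p_n)}` is not regular. -/
theorem result : ∃ p : ℕ → ℝ, (∀ n, 1 ≤ p n) ∧
    ∃ (F : Set (ℕ → ℝ)) (x : ℕ → ℝ), NotSeparated (rho p) F x :=
  ⟨pe, pe_ge, F, y (fun _ => true), main _⟩

end Pool.Agent.Results.MP_aae45c_an.NotRegular
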